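import Pool.Agent.Helper30.PL.Goals

/-! # Packet GROWTH of MP_b4564f_an -/

namespace Pool.Agent.Helper56.PL

open Pool.Agent.Helper30.PL Polynomial

/-- The shift. -/
def shift : Module.End ℂ (ℕ → ℂ) where
  toFun u n := u (n + 1)
  map_add' _ _ := rfl
  map_smul' _ _ := rfl

theorem shift_pow (m : ℕ) (u : ℕ → ℂ) (n : ℕ) : (shift ^ m) u n = u (n + m) := by
  induction m generalizing n with
  | zero => rfl
  | succ m ih =>
    rw [pow_succ']
    show (shift ^ m) u (n + 1) = _
    rw [ih, add_assoc, add_comm 1 m]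

theorem one_step {R : ℝ} {a : ℂ} (ha : ‖a‖ < R) {v : ℕ → ℂ} {C : ℝ}
    (h : ∀ n, ‖v (n + 1) - a * v n‖ ≤ C * R ^ n) : ∃ C' : ℝ, ∀ n, ‖v n‖ ≤ C' * R ^ n := by
  have hR : 0 < R := (norm_nonneg a).trans_lt ha
  have hd : 0 < R - ‖a‖ := sub_pos.2 ha
  refine ⟨max ‖v 0‖ (C / (R - ‖a‖)), fun n => ?_⟩
  set K := max ‖v 0‖ (C / (R - ‖a‖)) with hK
  have hK1 : C ≤ K * (R - ‖a‖) := (div_le_iff₀ hd).1 (le_max_right _ _)
  induction n with
  | zero =>
    rw [pow_zero, mul_one]
    exact le_max_left _ _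
  | succ n ih =>
    have h1 : ‖v (n + 1)‖ ≤ ‖v (n + 1) - a * v n‖ + ‖a * v n‖ := by
      have := norm_add_le (v (n + 1) - a * v n) (a * v n)
      rwa [sub_add_cancel] at this
    have h2 : ‖a * v n‖ ≤ ‖a‖ * (K * R ^ n) := by
      rw [norm_mul]
      exact mul_le_mul_of_nonneg_left ih (norm_nonneg a)
    have hRn : 0 < R ^ n := pow_pos hR n
    have h3 : C * R ^ n ≤ K * (R - ‖a‖) * R ^ n := mul_le_mul_of_nonneg_right hK1 hRn.le
    calc ‖v (n + 1)‖ ≤ C * R ^ n + ‖a‖ * (K * R ^ n) := h1.trans (add_le_add (h n) h2)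
      _ ≤ K * (R - ‖a‖) * R ^ n + ‖a‖ * (K * R ^ n) := by gcongr
      _ = K * R ^ (n + 1) := by rw [pow_succ]; ring

theorem list_step {R : ℝ} (l : List ℂ) : (∀ a ∈ l, ‖a‖ < R) → ∀ u : ℕ → ℂ,
    (∃ C : ℝ, ∀ n, ‖(l.map fun a => shift - algebraMap ℂ (Module.End ℂ (ℕ → ℂ)) a).prod u n‖ ≤
      C * R ^ n) → ∃ C : ℝ, ∀ n, ‖u n‖ ≤ C * R ^ n := by
  induction l with
  | nil => exact fun _ _ h => h
  | cons a l ih =>
    intro ha u h
    refine ih (fun b hb => ha b (List.mem_cons_of_mem a hb)) u ?_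
    obtain ⟨C, hC⟩ := h
    refine one_step (ha a List.mem_cons_self) (C := C) fun n => ?_
    have := hC n
    rw [List.map_cons, List.prod_cons] at this
    exact this

theorem growth : GrowthStmt := by
  intro k p R hR u hu
  set P : ℂ[X] := X ^ (k + 1) + (-X ^ k + C (p : ℂ)) with hP
  have hdeg : (-X ^ k + C (p : ℂ) : ℂ[X]).degree < ((k + 1 : ℕ) : WithBot ℕ) := by
    refine lt_of_le_of_lt (b := ((k : ℕ) : WithBot ℕ)) ?_ (by exact_mod_cast Nat.lt_succ_self k)
    refine (degree_add_le _ _).trans (max_le ?_ ?_)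
    · rw [degree_neg]
      exact degree_X_pow_le k
    · exact degree_C_le.trans (by exact_mod_cast Nat.zero_le k)
  have hmon : P.Monic := monic_X_pow_add hdeg
  have hroot : ∀ a ∈ P.roots.toList, ‖a‖ < R := by
    intro a ha
    rw [Multiset.mem_toList] at ha
    have h1 : P.IsRoot a := isRoot_of_mem_roots ha
    apply hR
    have h2 : P.eval a = 0 := h1
    rw [hP] at h2
    simp only [eval_add, eval_pow, eval_X, eval_neg, eval_C] at h2
    rw [← h2]
    ring
  have hprod : P = (P.roots.toList.map fun a => X - C a).prod := by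
    have h1 := (IsAlgClosed.splits P).eq_prod_roots_of_monic hmon
    conv_lhs => rw [h1]
    rw [← Multiset.coe_toList P.roots, Multiset.map_coe, Multiset.prod_coe, Multiset.coe_toList]
  have haev : aeval shift P = (P.roots.toList.map fun a =>
      shift - algebraMap ℂ (Module.End ℂ (ℕ → ℂ)) a).prod := by
    conv_lhs => rw [hprod]
    rw [map_list_prod, List.map_map]
    congr 1
    refine List.map_congr_left fun a _ => ?_
    simp
  have hzero : ∀ n, (aeval shift P) (fun n => (u n : ℂ)) n = 0 := by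
    intro n
    rw [hP]
    simp only [map_add, map_pow, aeval_X, map_neg, aeval_C, LinearMap.add_apply,
      LinearMap.neg_apply, Module.algebraMap_end_apply, Pi.add_apply, Pi.neg_apply, shift_pow,
      Pi.smul_apply, smul_eq_mul]
    have := hu n
    rw [add_assoc] at this
    rw [this]
    push_cast
    ring
  obtain ⟨C, hC⟩ := list_step P.roots.toList hroot (fun n => (u n : ℂ)) ⟨0, fun n => by
    rw [← haev, hzero n, norm_zero, zero_mul]⟩
  refine ⟨C, fun n => ?_⟩
  have := hC n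
  rwa [Complex.norm_real, Real.norm_eq_abs] at this

end Pool.Agent.Helper56.PL
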