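import Pool.Agent.Helper63.PL.Goals

/-!
# Lipschitz bound for mollified Sobolev functions
-/

set_option autoImplicit false

open MeasureTheory Set
open scoped ENNReal ContDiff Convolution

namespace Pool.Agent.Helper56.PL

open Pool.Agent.Helper63.PL

lemma mol_congr {N : ℕ} (ρ : E N → ℝ) {u v : E N → ℝ} (h : ∀ᵐ y, u y = v y) (x : E N) :
    mol ρ u x = mol ρ v x := by
  unfold mol
  refine integral_congr_ae ?_
  filter_upwards [h] with y hy
  rw [hy]

lemma mol_eq_conv {N : ℕ} (ρ : E N → ℝ) (u : E N → ℝ) (x : E N) :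
    mol ρ u x = (ρ ⋆[ContinuousLinearMap.lsmul ℝ ℝ, (volume : Measure (E N))] u) x := by
  unfold mol convolution
  rw [← integral_sub_left_eq_self (fun y => ρ (x - y) * u y) volume x]
  refine integral_congr_ae (Filter.Eventually.of_forall fun t => ?_)
  simp

theorem li (h : KeStmt) : LiStmt := by
  intro N δ B ρ hδ hK p _ hp D q hq x x'
  obtain ⟨hb, hsub, hneg⟩ := h.2 N δ B ρ hδ hK p hp
  -- the estimate is a closed condition
  have hcont : ∀ y, Continuous (fun u : Lp ℝ p (volume : Measure (E N)) => mol ρ u y) := by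
    intro y
    have hB : 0 ≤ B ^ (1 / p.toReal) := by
      refine Real.rpow_nonneg ?_ _
      have := hK.nonneg 0
      exact this.trans (hK.le 0)
    refine LipschitzWith.continuous (K := ⟨B ^ (1 / p.toReal), hB⟩) ?_
    refine LipschitzWith.of_dist_le_mul fun u v => ?_
    rw [Real.dist_eq, dist_eq_norm, ← hsub]
    exact (hb (u - v)).1 y
  have hclosed : IsClosed {q : Pair N p |
      |mol ρ q.1 x - mol ρ q.1 x'| ≤ B ^ (1 / p.toReal) * ‖q.2‖ * ‖x - x'‖} := by
    refine isClosed_le ?_ ?_
    · exact (((hcont x).comp continuous_fst).sub ((hcont x').comp continuous_fst)).abs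
    · exact (continuous_const.mul continuous_snd.norm).mul continuous_const
  refine closure_minimal ?_ hclosed hq
  rintro q ⟨φ, hφ, hφc, -, h1, h2⟩
  simp only [mem_setOf_eq]
  -- the derivative
  set F : E N → ℝ := ρ ⋆[ContinuousLinearMap.lsmul ℝ ℝ, (volume : Measure (E N))] φ with hF
  have hρc : Continuous ρ := hK.smooth.continuous
  have hρl : LocallyIntegrable ρ (volume : Measure (E N)) := hρc.locallyIntegrable
  have hφ1 : ContDiff ℝ 1 φ := hφ.of_le (by exact_mod_cast le_top)
  have hd : ∀ y, HasFDerivAt F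
      ((ρ ⋆[(ContinuousLinearMap.lsmul ℝ ℝ).precompR (E N), (volume : Measure (E N))]
        fderiv ℝ φ) y) y := fun y => hφc.hasFDerivAt_convolution_right _ hρl hφ1 y
  have hmw : MemLp (fun y => ‖q.2 y‖) p (volume : Measure (E N)) := (Lp.memLp q.2).norm
  have hw : ‖hmw.toLp‖ = ‖q.2‖ := by
    rw [Lp.norm_toLp, eLpNorm_norm, Lp.norm_def]
  have hbd : ∀ y, ‖(ρ ⋆[(ContinuousLinearMap.lsmul ℝ ℝ).precompR (E N),
      (volume : Measure (E N))] fderiv ℝ φ) y‖ ≤ B ^ (1 / p.toReal) * ‖q.2‖ := by
    intro y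
    have e1 : mol ρ hmw.toLp y = ∫ t, ρ t * ‖fderiv ℝ φ (y - t)‖ := by
      have e2 : mol ρ hmw.toLp y = mol ρ (fun z => ‖fderiv ℝ φ z‖) y := by
        refine mol_congr ρ ?_ y
        filter_upwards [hmw.coeFn_toLp, h2] with z hz hz2
        rw [hz, hz2, gradient, LinearIsometryEquiv.norm_map]
      rw [e2, mol_eq_conv]
      unfold convolution
      refine integral_congr_ae (Filter.Eventually.of_forall fun t => ?_)
      simp
    have hint : Integrable (fun t => ρ t * ‖fderiv ℝ φ (y - t)‖) (volume : Measure (E N)) := by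
      refine Continuous.integrable_of_hasCompactSupport ?_ ?_
      · exact hρc.mul (((hφ1.continuous_fderiv one_ne_zero).comp
          (continuous_const.sub continuous_id)).norm)
      · exact hK.compact.mul_right
    calc ‖(ρ ⋆[(ContinuousLinearMap.lsmul ℝ ℝ).precompR (E N),
          (volume : Measure (E N))] fderiv ℝ φ) y‖
        ≤ ∫ t, ρ t * ‖fderiv ℝ φ (y - t)‖ := by
          unfold convolution
          refine norm_integral_le_of_norm_le hint (Filter.Eventually.of_forall fun t => ?_)
          have e3 : ((ContinuousLinearMap.lsmul ℝ ℝ).precompR (E N)) (ρ t)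
              (fderiv ℝ φ (y - t)) = ρ t • fderiv ℝ φ (y - t) := by
            ext v
            simp [ContinuousLinearMap.precompR_apply]
          rw [e3, norm_smul, Real.norm_eq_abs, abs_of_nonneg (hK.nonneg t)]
      _ = mol ρ hmw.toLp y := e1.symm
      _ ≤ |mol ρ hmw.toLp y| := le_abs_self _
      _ ≤ B ^ (1 / p.toReal) * ‖hmw.toLp‖ := (hb _).1 y
      _ = B ^ (1 / p.toReal) * ‖q.2‖ := by rw [hw]
  have key := (convex_univ (𝕜 := ℝ) (E := E N)).norm_image_sub_le_of_norm_hasFDerivWithin_le
    (f := F) (fun y _ => (hd y).hasFDerivWithinAt) (fun y _ => hbd y) (mem_univ x') (mem_univ x)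
  rw [mol_congr ρ h1 x, mol_congr ρ h1 x', mol_eq_conv, mol_eq_conv]
  exact key

end Pool.Agent.Helper56.PL
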