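import Pool.Agent.Helper84.PL.Goals

set_option autoImplicit false

/-!
# Project PL (MP_d6b153_co): assembly of the pages.
-/

namespace Pool.Agent.Helper56.PL

open Pool.Agent.Helper84.PL

/-- The pages. -/
abbrev Pg (c : ℕ) : Type := (Bool × Fin c × Fin c) ⊕ {p : Fin c × Fin c // p.1 ≠ p.2}

theorem card_Pg (c : ℕ) : Fintype.card (Pg c) = 3 * c ^ 2 - c := by
  have h1 : Fintype.card {p : Fin c × Fin c // p.1 ≠ p.2} = c * c - c := by
    rw [Fintype.card_subtype]
    have h2 : (Finset.univ.filter fun p : Fin c × Fin c => p.1 ≠ p.2) =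
        (Finset.univ : Finset (Fin c)).offDiag := by
      ext p
      simp [Finset.mem_offDiag]
    rw [h2, Finset.offDiag_card]
    simp
  have h3 : c ≤ c * c := Nat.le_mul_self c
  have h4 : c ^ 2 = c * c := by ring
  rw [Fintype.card_sum, h1]
  simp only [Fintype.card_prod, Fintype.card_bool, Fintype.card_fin]
  rw [h4]
  omega

theorem eq_not_of_ne {a b : Bool} (h : a ≠ b) : b = !a := by
  cases a <;> cases b <;> simp_all

theorem main (hMT : G_MT) (hHT : G_HT) (hLIN : G_LIN) (hBI : G_BI) (hMO : G_MO) : G_MAIN := by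
  classical
  intro V _ _ _ R χ τ c hB hc
  obtain ⟨h, hhc, hh⟩ := hHT V χ c hc
  obtain ⟨hτ, hh2⟩ := hMT V R χ τ hB
  have hh3 := hh2 h hh
  obtain ⟨M, hM⟩ : ∃ M : ℕ, ∀ v : V, R.lam v < M ∧ R.rho v < M := by
    refine ⟨Finset.univ.sup (fun v : V => R.lam v) + Finset.univ.sup (fun v : V => R.rho v) + 1,
      fun v => ?_⟩
    have h1 : R.lam v ≤ Finset.univ.sup (fun v : V => R.lam v) :=
      Finset.le_sup (f := fun v : V => R.lam v) (Finset.mem_univ v)
    have h2 : R.rho v ≤ Finset.univ.sup (fun v : V => R.rho v) :=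
      Finset.le_sup (f := fun v : V => R.rho v) (Finset.mem_univ v)
    omega
  obtain ⟨hinj, hmono⟩ := hLIN V R χ τ M hB hM
  have hmo := hMO V R χ τ h M hM hB.same hB.col hh3
  choose col hcol using hmo
  have hbi := hBI V R χ τ h M hB hM hh3
  let e : Pg c ≃ Fin (3 * c ^ 2 - c) := Fintype.equivFinOfCardEq (card_Pg c)
  let pg : V → V → Pg c := fun u w =>
    if χ u ≠ χ w then Sum.inl (χ u, ⟨h u, hhc u⟩, ⟨h w, hhc w⟩)
    else if hlt : h u < h w then
      (if col (χ u) (h u) (h w) u = true then
        Sum.inr ⟨(⟨h u, hhc u⟩, ⟨h w, hhc w⟩), fun he => by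
          have := congrArg Fin.val he
          simp only at this
          omega⟩
      else
        Sum.inr ⟨(⟨h w, hhc w⟩, ⟨h u, hhc u⟩), fun he => by
          have := congrArg Fin.val he
          simp only at this
          omega⟩)
    else Sum.inl (true, ⟨h u, hhc u⟩, ⟨h w, hhc w⟩)
  refine ⟨sig R χ τ M, fun u w => e (pg u w), hinj, hmono, ?_⟩
  intro u w u' w' huw huw' heq hcr
  have hpg : pg u w = pg u' w' := e.injective heq
  by_cases h1 : χ u = χ w
  · have h2 : h u < h w := hh u w huw h1
    by_cases h1' : χ u' = χ w'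
    · have h2' : h u' < h w' := hh u' w' huw' h1'
      have key : h u = h u' ∧ h w = h w' ∧
          col (χ u) (h u) (h w) u = col (χ u') (h u') (h w') u' := by
        simp only [pg, h1, h1', ne_eq, not_true_eq_false, if_false, dif_pos h2, dif_pos h2'] at hpg
        rw [h1, h1']
        cases h3 : col (χ w) (h u) (h w) u <;> cases h3' : col (χ w') (h u') (h w') u' <;>
          simp only [h3, h3', reduceIte, Bool.false_eq_true, Sum.inr.injEq, Subtype.mk.injEq,
            Prod.mk.injEq, Fin.mk.injEq] at hpg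
        · exact ⟨hpg.2, hpg.1, rfl⟩
        · omega
        · omega
        · exact ⟨hpg.1, hpg.2, rfl⟩
      obtain ⟨k1, k2, k3⟩ := key
      have hχ : χ u = χ u' := by
        have e1 : τ u = τ w := hB.same u w huw h1
        have e2 : τ u' = τ w' := hB.same u' w' huw' h1'
        have a1 := (hM u).1
        have a2 := (hM u).2
        have b1 := (hM u').1
        have b2 := (hM u').2
        have c1 := (hM w).1
        have c2 := (hM w).2
        have q1 : M * τ u < M * (τ u' + 1) := by
          have := hcr.1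
          unfold sig at this
          split_ifs at this <;> rw [Nat.mul_add] <;> omega
        have q2 : M * τ u' < M * (τ w + 1) := by
          have := hcr.2.1
          unfold sig at this
          split_ifs at this <;> rw [Nat.mul_add] <;> omega
        have r1 := Nat.lt_of_mul_lt_mul_left q1
        have r2 := Nat.lt_of_mul_lt_mul_left q2
        exact hB.col u u' (by omega)
      refine hcol (χ u) (h u) (h w) u w u' w' huw huw' rfl h1.symm hχ.symm (h1'.symm.trans hχ.symm)
        rfl k1.symm rfl k2.symm hcr.1 hcr.2.1 hcr.2.2 ?_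
      rw [← hχ, ← k1, ← k2] at k3
      exact k3
    · exfalso
      simp only [pg, h1, h1', ne_eq, not_true_eq_false, not_false_eq_true, if_false, if_true,
        dif_pos h2] at hpg
      split_ifs at hpg
  · by_cases h1' : χ u' = χ w'
    · exfalso
      have h2' : h u' < h w' := hh u' w' huw' h1'
      simp only [pg, h1, h1', ne_eq, not_true_eq_false, not_false_eq_true, if_false, if_true,
        dif_pos h2'] at hpg
      split_ifs at hpg
    · simp only [pg, h1, h1', ne_eq, not_false_eq_true, if_true, Sum.inl.injEq, Prod.mk.injEq,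
        Fin.mk.injEq] at hpg
      have f1 : χ w = !χ u := eq_not_of_ne h1
      have f2 : χ w' = !χ u := by
        rw [hpg.1]
        exact eq_not_of_ne h1'
      exact hbi (χ u) u w u' w' ⟨huw, rfl, f1⟩ ⟨huw', hpg.1.symm, f2⟩ hpg.2.1 hpg.2.2 hcr

end Pool.Agent.Helper56.PL
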